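import Mathlib

/-!
# MP_f5f603_al, Q1: a connected noninvolutory quandle with two distinct good involutions

The example is the product of the quandle `R₁` of the six 4-cycles of the symmetric group on four
letters (connected, noninvolutory, good involution `x ↦ x⁻¹`) and the quandle `R₂` of the twelve
reflections in `GL(2,3)` (connected, involutory, with the two good involutions `x ↦ x` and
`x ↦ -x`). It is connected, it is not involutory, and it has two distinct good involutions.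
-/

set_option autoImplicit false

namespace Pool.Agent.Results.MP_f5f603_al.TwoGoodInvolutions

/-- A quandle, with the conventions of the problem (right translations). -/
structure RQuandle (R : Type) where
  /-- the operation `x * y` -/
  op : R → R → R
  /-- `x * x = x` -/
  idem : ∀ x, op x x = x
  /-- right translations are bijections -/
  bij : ∀ y, Function.Bijective (fun x => op x y)
  /-- `(x * y) * z = (x * z) * (y * z)` -/
  distrib : ∀ x y z, op (op x y) z = op (op x z) (op y z)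

variable {R : Type}

/-- The right translation `s_y : x ↦ x * y` as a permutation. -/
noncomputable def RQuandle.s (Q : RQuandle R) (y : R) : Equiv.Perm R :=
  Equiv.ofBijective (fun x => Q.op x y) (Q.bij y)

/-- The group generated by the right translations acts transitively. -/
def RQuandle.Connected (Q : RQuandle R) : Prop :=
  ∀ x x' : R, ∃ g ∈ Subgroup.closure (Set.range Q.s), g x = x'

/-- All right translations have `s_y ^ 2 = id`. -/
def RQuandle.Involutory (Q : RQuandle R) : Prop :=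
  ∀ y : R, Q.s y ^ 2 = 1

/-- Good involutions in the sense of Kamada. -/
def RQuandle.GoodInvolution (Q : RQuandle R) (ρ : R → R) : Prop :=
  (∀ x, ρ (ρ x) = x) ∧ (∀ x y, ρ (Q.op x y) = Q.op (ρ x) y) ∧ ∀ y, Q.s (ρ y) = (Q.s y)⁻¹

theorem s_apply (Q : RQuandle R) (x y : R) : Q.s y x = Q.op x y := rfl

/-- Words applied to an element. -/
def app (f : R → R → R) (x : R) : List R → R
  | [] => x
  | y :: l => app f (f x y) l

theorem app_mem (Q : RQuandle R) (l : List R) : ∀ x : R, 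
    ∃ g ∈ Subgroup.closure (Set.range Q.s), g x = app Q.op x l := by
  induction l with
  | nil => intro x; exact ⟨1, Subgroup.one_mem _, rfl⟩
  | cons y l ih =>
    intro x
    obtain ⟨g, hg, h⟩ := ih (Q.op x y)
    refine ⟨g * Q.s y, Subgroup.mul_mem _ hg (Subgroup.subset_closure ⟨y, rfl⟩), ?_⟩
    rw [Equiv.Perm.mul_apply, s_apply, h]
    rfl

theorem connected_of_base (Q : RQuandle R) (x₀ : R)
    (h : ∀ x, ∃ g ∈ Subgroup.closure (Set.range Q.s), g x₀ = x) : Q.Connected := by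
  intro x x'
  obtain ⟨g, hg, h1⟩ := h x
  obtain ⟨g', hg', h2⟩ := h x'
  refine ⟨g' * g⁻¹, Subgroup.mul_mem _ hg' (Subgroup.inv_mem _ hg), ?_⟩
  rw [Equiv.Perm.mul_apply, ← h1, ← Equiv.Perm.mul_apply g⁻¹ g, inv_mul_cancel, Equiv.Perm.one_apply, h2]

/-- The operation table of the quandle of 4-cycles. -/
def t1 : Fin 6 → Fin 6 → Fin 6 :=
  ![![0, 5, 3, 1, 0, 2],
    ![3, 1, 1, 4, 5, 0],
    ![5, 2, 2, 0, 3, 4],
    ![2, 0, 4, 3, 1, 3],
    ![4, 3, 5, 2, 4, 1],
    ![1, 4, 0, 5, 2, 5]]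

/-- The inverse map on 4-cycles. -/
def r1 : Fin 6 → Fin 6 := ![4, 2, 1, 5, 0, 3]

/-- Words moving `0` to `x`. -/
def w1 : Fin 6 → List (Fin 6) := ![[], [3], [5], [2], [1, 1], [1]]

/-- The operation table of the quandle of reflections in `GL(2,3)`. -/
def t2 : Fin 12 → Fin 12 → Fin 12 :=
  ![![0, 0, 1, 6, 11, 4, 9, 1, 11, 6, 9, 4],
    ![1, 1, 0, 10, 5, 8, 3, 0, 5, 10, 3, 8],
    ![7, 7, 2, 4, 3, 6, 5, 2, 3, 4, 5, 6],
    ![10, 10, 4, 3, 2, 9, 1, 4, 2, 3, 1, 9],
    ![11, 11, 3, 2, 4, 0, 8, 3, 4, 2, 8, 0],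
    ![8, 8, 6, 11, 1, 5, 2, 6, 1, 11, 2, 5],
    ![9, 9, 5, 0, 10, 2, 6, 5, 10, 0, 6, 2],
    ![2, 2, 7, 8, 9, 10, 11, 7, 9, 8, 11, 10],
    ![5, 5, 9, 7, 8, 1, 4, 9, 8, 7, 4, 1],
    ![6, 6, 8, 9, 7, 3, 0, 8, 7, 9, 0, 3],
    ![3, 3, 11, 1, 6, 7, 10, 11, 6, 1, 10, 7],
    ![4, 4, 10, 5, 0, 11, 7, 10, 0, 5, 7, 11]]

/-- The map `x ↦ -x` on the reflections. -/
def r2 : Fin 12 → Fin 12 := ![1, 0, 7, 9, 8, 11, 10, 2, 4, 3, 6, 5]

/-- Words moving `0` to `x`. -/
def w2 : Fin 12 → List (Fin 12) := ![[], [2], [3, 5], [2, 6], [5], [2, 4], [3], [4, 6], [2, 5], [6], [2, 3], [4]]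

/-- The quandle of 4-cycles. -/
def Q1 : RQuandle (Fin 6) where
  op := t1
  idem := by decide
  bij := by
    intro y
    exact Finite.injective_iff_bijective.mp ((by decide : ∀ y : Fin 6, Function.Injective (fun x => t1 x y)) y)
  distrib := by decide

/-- The quandle of reflections in `GL(2,3)`. -/
def Q2 : RQuandle (Fin 12) where
  op := t2
  idem := by decide
  bij := by
    intro y
    exact Finite.injective_iff_bijective.mp ((by decide : ∀ y : Fin 12, Function.Injective (fun x => t2 x y)) y)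
  distrib := by decide

/-- The product of two quandles. -/
def prod {A B : Type} (P : RQuandle A) (Q : RQuandle B) : RQuandle (A × B) where
  op x y := (P.op x.1 y.1, Q.op x.2 y.2)
  idem x := by simp [P.idem, Q.idem]
  bij y := by
    have := (P.bij y.1).prodMap (Q.bij y.2)
    exact this
  distrib x y z := by
    show (P.op (P.op x.1 y.1) z.1, Q.op (Q.op x.2 y.2) z.2) =
      (P.op (P.op x.1 z.1) (P.op y.1 z.1), Q.op (Q.op x.2 z.2) (Q.op y.2 z.2))
    rw [P.distrib, Q.distrib]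

theorem prod_good {A B : Type} (P : RQuandle A) (Q : RQuandle B) (ρ : A → A) (σ : B → B)
    (h1 : P.GoodInvolution ρ) (h2 : Q.GoodInvolution σ) :
    (prod P Q).GoodInvolution (Prod.map ρ σ) := by
  refine ⟨fun x => Prod.ext (h1.1 x.1) (h2.1 x.2), fun x y => ?_, fun y => ?_⟩
  · show (ρ (P.op x.1 y.1), σ (Q.op x.2 y.2)) = (P.op (ρ x.1) y.1, Q.op (σ x.2) y.2)
    rw [h1.2.1, h2.2.1]
  · rw [eq_inv_iff_mul_eq_one]
    refine Equiv.ext fun x => Prod.ext ?_ ?_
    · exact congrArg (fun f => f x.1) (eq_inv_iff_mul_eq_one.mp (h1.2.2 y.1))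
    · exact congrArg (fun f => f x.2) (eq_inv_iff_mul_eq_one.mp (h2.2.2 y.2))

theorem good1 : Q1.GoodInvolution r1 := by
  refine ⟨by decide, by decide, fun y => ?_⟩
  rw [eq_inv_iff_mul_eq_one]
  ext x : 1
  exact (by decide : ∀ x y : Fin 6, t1 (t1 x y) (r1 y) = x) x y

theorem good2 : Q2.GoodInvolution r2 := by
  refine ⟨by decide, by decide, fun y => ?_⟩
  rw [eq_inv_iff_mul_eq_one]
  ext x : 1
  exact (by decide : ∀ x y : Fin 12, t2 (t2 x y) (r2 y) = x) x y

theorem good2' : Q2.GoodInvolution id := by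
  refine ⟨by decide, by decide, fun y => ?_⟩
  rw [eq_inv_iff_mul_eq_one]
  ext x : 1
  exact (by decide : ∀ x y : Fin 12, t2 (t2 x y) y = x) x y

theorem prod_connected : (prod Q1 Q2).Connected := by
  apply connected_of_base _ ((0 : Fin 6), (0 : Fin 12))
  have step1 : ∀ (l : List (Fin 6)) (a : Fin 6) (b : Fin 12),
      ∃ g ∈ Subgroup.closure (Set.range (prod Q1 Q2).s), g (a, b) = (app t1 a l, b) := by
    intro l
    induction l with
    | nil => intro a b; exact ⟨1, Subgroup.one_mem _, rfl⟩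
    | cons y l ih =>
      intro a b
      obtain ⟨g, hg, h⟩ := ih (t1 a y) b
      refine ⟨g * (prod Q1 Q2).s (y, b), Subgroup.mul_mem _ hg
        (Subgroup.subset_closure ⟨_, rfl⟩), ?_⟩
      have e : (prod Q1 Q2).s (y, b) (a, b) = (t1 a y, b) :=
        Prod.ext rfl (Q2.idem b)
      rw [Equiv.Perm.mul_apply, e, h]
      rfl
  have step2 : ∀ (l : List (Fin 12)) (a : Fin 6) (b : Fin 12),
      ∃ g ∈ Subgroup.closure (Set.range (prod Q1 Q2).s), g (a, b) = (a, app t2 b l) := by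
    intro l
    induction l with
    | nil => intro a b; exact ⟨1, Subgroup.one_mem _, rfl⟩
    | cons y l ih =>
      intro a b
      obtain ⟨g, hg, h⟩ := ih a (t2 b y)
      refine ⟨g * (prod Q1 Q2).s (a, y), Subgroup.mul_mem _ hg
        (Subgroup.subset_closure ⟨_, rfl⟩), ?_⟩
      have e : (prod Q1 Q2).s (a, y) (a, b) = (a, t2 b y) :=
        Prod.ext (Q1.idem a) rfl
      rw [Equiv.Perm.mul_apply, e, h]
      rfl
  rintro ⟨a, b⟩
  obtain ⟨g, hg, h1⟩ := step1 (w1 a) 0 0
  obtain ⟨g', hg', h2⟩ := step2 (w2 b) (app t1 0 (w1 a)) 0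
  refine ⟨g' * g, Subgroup.mul_mem _ hg' hg, ?_⟩
  rw [Equiv.Perm.mul_apply, h1, h2]
  exact Prod.ext ((by decide : ∀ a : Fin 6, app t1 0 (w1 a) = a) a)
    ((by decide : ∀ b : Fin 12, app t2 0 (w2 b) = b) b)

/-- There is a (finite) connected quandle that is not involutory and has two distinct good
involutions. -/
theorem result : ∃ (R : Type) (Q : RQuandle R), Finite R ∧ Q.Connected ∧ ¬ Q.Involutory ∧
    ∃ ρ₁ ρ₂ : R → R, ρ₁ ≠ ρ₂ ∧ Q.GoodInvolution ρ₁ ∧ Q.GoodInvolution ρ₂ := by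
  refine ⟨Fin 6 × Fin 12, prod Q1 Q2, inferInstance, prod_connected, ?_,
    Prod.map r1 r2, Prod.map r1 id, ?_, prod_good _ _ _ _ good1 good2,
    prod_good _ _ _ _ good1 good2'⟩
  · intro h
    have h1 := congrArg (fun f => (f ((0 : Fin 6), (0 : Fin 12))).1) (h (1, 0))
    exact absurd h1 (by decide : t1 (t1 0 1) 1 ≠ 0)
  · intro h
    have h1 := congrArg (fun f => (f ((0 : Fin 6), (0 : Fin 12))).2) h
    exact absurd h1 (by decide : r2 0 ≠ 0)

end Pool.Agent.Results.MP_f5f603_al.TwoGoodInvolutions
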